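import Pool.Agent.DERV.BAS

/-!
# Project DERV: consequences of `V_1 = 0` for arbitrary vertex operator algebras

If `V_1 = 0` then `V_n = 0` for all negative `n` (representation theory of `sl_2`), and `V_0` is
central.
-/

set_option autoImplicit false

universe u w

open Finset

namespace Pool.Agent.DERVX

open Pool.Agent.VOAut Pool.Agent.DERV

variable {V : Type u} [AddCommGroup V] [Module ℂ V] (A : VOA V)

theorem L1_comm (v : V) : A.Y A.om 2 (A.Y A.om 0 v) =
    A.Y A.om 0 (A.Y A.om 2 v) + (2 : ℂ) • A.Y A.om 1 v := by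
  have h := A.virasoro 1 (-1) v
  norm_num at h
  rw [sub_eq_iff_eq_add] at h
  rw [h, add_comm]

theorem pow_mem (n : ℤ) (x : V) (hx : x ∈ A.gr n) (j : ℕ) :
    ((A.Y A.om 0) ^ j) x ∈ A.gr (n + j) := by
  induction j with
  | zero => simpa using hx
  | succ j ih =>
    rw [pow_succ', Module.End.mul_apply]
    have h1 := A.graded 2 0 (n + j) A.om _ A.om_mem ih
    have e : n + (j : ℤ) + 2 - 0 - 1 = n + ((j + 1 : ℕ) : ℤ) := by push_cast; ring
    rwa [e] at h1

theorem L1_pow (n : ℤ) (x : V) (hx : x ∈ A.gr n) (h2 : A.Y A.om 2 x = 0) (j : ℕ) :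
    A.Y A.om 2 (((A.Y A.om 0) ^ (j + 1)) x) =
      (((j : ℂ) + 1) * (2 * n + j)) • ((A.Y A.om 0) ^ j) x := by
  induction j with
  | zero =>
    rw [zero_add, pow_one, L1_comm, h2, map_zero, zero_add, (A.mem_gr n x).1 hx, smul_smul,
      pow_zero, Module.End.one_apply]
    congr 1
    push_cast
    ring
  | succ j ih =>
    rw [pow_succ' (A.Y A.om 0) (j + 1), Module.End.mul_apply, L1_comm, ih, map_smul]
    have h3 := (A.mem_gr _ _).1 (pow_mem A n x hx (j + 1))
    rw [h3, smul_smul]
    have h4 : (A.Y A.om 0) (((A.Y A.om 0) ^ j) x) = ((A.Y A.om 0) ^ (j + 1)) x := by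
      rw [pow_succ', Module.End.mul_apply]
    rw [h4, ← add_smul]
    congr 1
    push_cast
    ring

/-- If `V_1 = 0` then `V_n = 0` for `n < 0`. -/
theorem neg_of_one (h1 : A.gr 1 = ⊥) (n : ℤ) (hn : n < 0) : A.gr n = ⊥ := by
  obtain ⟨N, hN⟩ := A.bounded
  -- induction from below
  have key : ∀ k : ℕ, N + k < 0 → A.gr (N + k) = ⊥ := by
    intro k
    induction k using Nat.strong_induction_on with
    | _ k ih =>
      intro hk
      have hprev : A.gr (N + k - 1) = ⊥ := by
        rcases Nat.eq_zero_or_pos k with h0 | h0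
        · subst h0
          apply hN
          push_cast
          omega
        · have := ih (k - 1) (by omega) (by omega)
          have e : N + ((k - 1 : ℕ) : ℤ) = N + k - 1 := by omega
          rwa [e] at this
      rw [eq_bot_iff]
      intro x hx
      rw [Submodule.mem_bot]
      have hL1 : A.Y A.om 2 x = 0 := by
        have := A.graded 2 2 (N + k) A.om x A.om_mem hx
        have e : N + (k : ℤ) + 2 - 2 - 1 = N + k - 1 := by ring
        rw [e, hprev, Submodule.mem_bot] at this
        exact this
      obtain ⟨m, hm⟩ : ∃ m : ℕ, (m : ℤ) = -(N + k) := ⟨(-(N + k)).toNat, by omega⟩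
      have htop : ((A.Y A.om 0) ^ (m + 1)) x = 0 := by
        have := pow_mem A (N + k) x hx (m + 1)
        have e : N + (k : ℤ) + ((m + 1 : ℕ) : ℤ) = 1 := by push_cast; omega
        rw [e, h1, Submodule.mem_bot] at this
        exact this
      -- descend
      have hdesc : ∀ j : ℕ, j ≤ m + 1 → ((A.Y A.om 0) ^ (m + 1 - j)) x = 0 := by
        intro j
        induction j with
        | zero => intro _; simpa using htop
        | succ j ihj =>
          intro hj
          have h3 := ihj (by omega)
          have e : m + 1 - j = (m - j) + 1 := by omega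
          have e' : m + 1 - (j + 1) = m - j := by omega
          rw [e] at h3
          have h4 := L1_pow A (N + k) x hx hL1 (m - j)
          rw [h3, map_zero] at h4
          rw [e']
          rcases smul_eq_zero.1 h4.symm with h5 | h5
          · exfalso
            have h6 : (((((m - j : ℕ) : ℤ) + 1) * (2 * (N + k) + ((m - j : ℕ) : ℤ)) : ℤ) : ℂ) = 0 := by
              rw [← h5]
              push_cast
              ring
            have h7 : (((m - j : ℕ) : ℤ) + 1) * (2 * (N + k) + ((m - j : ℕ) : ℤ)) = 0 := by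
              exact_mod_cast h6
            rcases mul_eq_zero.1 h7 with h8 | h8
            · omega
            · omega
          · exact h5
      have := hdesc (m + 1) le_rfl
      simpa using this
  by_cases hnN : n < N
  · exact hN n hnN
  · have := key (n - N).toNat (by omega)
    have e : N + ((n - N).toNat : ℤ) = n := by omega
    rwa [e] at this

/-- If `V_1 = 0`, the modes of `v ∈ V_0` vanish except `v_{-1}`. -/
theorem zero_modes (h1 : A.gr 1 = ⊥) (v : V) (hv : v ∈ A.gr 0) (n : ℤ) (hn : n ≠ -1) (w : V) :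
    A.Y v n w = 0 := by
  have h0 : A.Y A.om 0 v = 0 := by
    have := A.graded 2 0 0 A.om v A.om_mem hv
    have e : (0 : ℤ) + 2 - 0 - 1 = 1 := by ring
    rw [e, h1, Submodule.mem_bot] at this
    exact this
  have h2 := A.translation v (n + 1)
  rw [h0, map_zero, Pi.zero_apply] at h2
  have h3 := congrArg (fun f : Module.End ℂ V => f w) h2
  simp only [LinearMap.zero_apply, LinearMap.smul_apply, add_sub_cancel_right] at h3
  rcases smul_eq_zero.1 h3.symm with h4 | h4
  · exfalso
    rw [neg_eq_zero] at h4
    have : (n + 1 : ℤ) = 0 := by exact_mod_cast h4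
    omega
  · exact h4

/-- If `V_1 = 0`, `v_{-1}` commutes with all modes for `v ∈ V_0`. -/
theorem zero_comm (h1 : A.gr 1 = ⊥) (v : V) (hv : v ∈ A.gr 0) (u : V) (n : ℤ) (w : V) :
    A.Y v (-1) (A.Y u n w) = A.Y u n (A.Y v (-1) w) := by
  obtain ⟨K, hK⟩ := (A.comm_ev v u w (-1) n).exists
  rw [← sub_eq_zero, hK]
  apply Finset.sum_eq_zero
  intro i _
  rw [zero_modes A h1 v hv i (by omega) u, map_zero, Pi.zero_apply, LinearMap.zero_apply, smul_zero]

end Pool.Agent.DERVX
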