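import Pool.Agent.DERVX.XA

/-!
# Project DERV: the direct factor of a vertex operator algebra cut out by a central idempotent
-/

set_option autoImplicit false

universe u w

open Finset

namespace Pool.Agent.DERVX

open Pool.Agent.VOAut Pool.Agent.DERV

variable {V : Type u} [AddCommGroup V] [Module ℂ V]

/-- Central idempotents of a vertex operator algebra. -/
structure Idem (A : VOA V) (e : V) : Prop where
  mem : e ∈ A.gr 0
  van : ∀ (n : ℤ), n ≠ -1 → ∀ w, A.Y e n w = 0
  comm : ∀ (u : V) (n : ℤ) (w : V), A.Y e (-1) (A.Y u n w) = A.Y u n (A.Y e (-1) w)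
  idem : A.Y e (-1) e = e

variable {A : VOA V} {e : V}

theorem Idem.left (he : Idem A e) (z w : V) (n : ℤ) :
    A.Y (A.Y e (-1) z) n w = A.Y e (-1) (A.Y z n w) := by
  have h := A.jacobi e z w (-1) 0 n
  have hl : ∑ᶠ i : ℕ, ((Ring.choose (0 : ℤ) i : ℤ) : ℂ) • A.Y (A.Y e (-1 + i) z) (0 + n - i) w =
      A.Y (A.Y e (-1) z) n w := by
    rw [finsum_eq_single _ 0]
    · simp
    · intro i hi
      rw [he.van (-1 + i) (by omega) z, map_zero, Pi.zero_apply, LinearMap.zero_apply, smul_zero]
  have hr : ∑ᶠ i : ℕ, ((-1 : ℂ) ^ i * ((Ring.choose (-1 : ℤ) i : ℤ) : ℂ)) •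
      (A.Y e (0 + -1 - i) (A.Y z (n + i) w) -
        (-1 : ℂ) ^ (-1 : ℤ) • A.Y z (n + -1 - i) (A.Y e (0 + i) w)) =
      A.Y e (-1) (A.Y z n w) := by
    rw [finsum_eq_single _ 0]
    · rw [he.van (0 + ((0 : ℕ) : ℤ)) (by simp) w, map_zero, smul_zero, sub_zero]
      simp
    · intro i hi
      rw [he.van (0 + -1 - i) (by omega), he.van (0 + i) (by omega), map_zero, smul_zero,
        sub_zero, smul_zero]
  rw [hl, hr] at h
  exact h

theorem Idem.pp (he : Idem A e) (w : V) : A.Y e (-1) (A.Y e (-1) w) = A.Y e (-1) w := by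
  have := he.left e w (-1)
  rw [he.idem] at this
  exact this.symm

/-- The ideal cut out by `e`. -/
def NN (A : VOA V) (e : V) : Submodule ℂ V where
  carrier := {v | A.Y e (-1) v = v}
  zero_mem' := map_zero _
  add_mem' := fun {a b} ha hb => by
    show A.Y e (-1) (a + b) = a + b
    rw [map_add]
    exact congrArg₂ _ ha hb
  smul_mem' := fun c a ha => by
    show A.Y e (-1) (c • a) = c • a
    rw [map_smul]
    exact congrArg _ ha

/-- The ideal cut out by `e` as a type. -/
def NT (A : VOA V) (e : V) : Type u := NN A e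

noncomputable instance (A : VOA V) (e : V) : AddCommGroup (NT A e) :=
  inferInstanceAs (AddCommGroup (NN A e))

noncomputable instance (A : VOA V) (e : V) : Module ℂ (NT A e) :=
  inferInstanceAs (Module ℂ (NN A e))

/-- inclusion -/
noncomputable def nv (A : VOA V) (e : V) : NT A e →ₗ[ℂ] V := (NN A e).subtype

theorem nv_inj (A : VOA V) (e : V) : Function.Injective (nv A e) := Subtype.val_injective

theorem nv_fix (A : VOA V) (e : V) (y : NT A e) : A.Y e (-1) (nv A e y) = nv A e y := y.2

/-- restriction of an endomorphism of `V` that preserves the ideal -/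
noncomputable def nres (A : VOA V) (e : V) (f : Module.End ℂ V)
    (hf : ∀ w, A.Y e (-1) w = w → A.Y e (-1) (f w) = f w) : Module.End ℂ (NT A e) where
  toFun y := ⟨f (nv A e y), hf _ (nv_fix A e y)⟩
  map_add' x y := Subtype.ext (by
    show f (nv A e (x + y)) = f (nv A e x) + f (nv A e y)
    rw [map_add, map_add])
  map_smul' c y := Subtype.ext (by
    show f (nv A e (c • y)) = c • f (nv A e y)
    rw [map_smul, map_smul])

theorem nres_val (A : VOA V) (e : V) (f : Module.End ℂ V)
    (hf : ∀ w, A.Y e (-1) w = w → A.Y e (-1) (f w) = f w) (y : NT A e) :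
    nv A e (nres A e f hf y) = f (nv A e y) := rfl

/-- projection onto the ideal -/
noncomputable def npr (he : Idem A e) : V →ₗ[ℂ] NT A e where
  toFun v := ⟨A.Y e (-1) v, he.pp v⟩
  map_add' x y := Subtype.ext (map_add _ x y)
  map_smul' c y := Subtype.ext (map_smul _ c y)

theorem npr_val (he : Idem A e) (v : V) : nv A e (npr he v) = A.Y e (-1) v := rfl

theorem npr_nv (he : Idem A e) (y : NT A e) : npr he (nv A e y) = y :=
  nv_inj A e (nv_fix A e y)

theorem npr_surj (he : Idem A e) : Function.Surjective (npr he) :=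
  fun y => ⟨nv A e y, npr_nv he y⟩

/-- The modes on the ideal. -/
noncomputable def nY (he : Idem A e) : NT A e →ₗ[ℂ] (ℤ → Module.End ℂ (NT A e)) where
  toFun u n := nres A e (A.Y (nv A e u) n) (fun w hw => by rw [he.comm, hw])
  map_add' u v := by
    funext n
    apply LinearMap.ext
    intro y
    apply nv_inj
    show A.Y (nv A e (u + v)) n (nv A e y) = _
    rw [map_add, map_add]
    rfl
  map_smul' c v := by
    funext n
    apply LinearMap.ext
    intro y
    apply nv_inj
    show A.Y (nv A e (c • v)) n (nv A e y) = _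
    rw [map_smul, map_smul]
    rfl

theorem nY_val (he : Idem A e) (u : NT A e) (n : ℤ) (y : NT A e) :
    nv A e (nY he u n y) = A.Y (nv A e u) n (nv A e y) := rfl

/-- grading of the ideal -/
noncomputable def ngr (A : VOA V) (e : V) (n : ℤ) : Submodule ℂ (NT A e) :=
  (A.gr n).comap (nv A e)

theorem mem_ngr (n : ℤ) (y : NT A e) : y ∈ ngr A e n ↔ nv A e y ∈ A.gr n := Iff.rfl

theorem Idem.pgr (he : Idem A e) (n : ℤ) (v : V) (hv : v ∈ A.gr n) : A.Y e (-1) v ∈ A.gr n := by
  have := A.graded 0 (-1) n e v he.mem hv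
  have e1 : n + 0 - -1 - 1 = n := by ring
  rwa [e1] at this

theorem ngr_internal (he : Idem A e) : DirectSum.IsInternal (ngr A e) := by
  classical
  rw [DirectSum.isInternal_submodule_iff_iSupIndep_and_iSup_eq_top]
  constructor
  · -- independence by the eigenspace argument: transport from `A.gr`
    have h1 : iSupIndep A.gr := A.internal.submodule_iSupIndep
    rw [iSupIndep_iff_forall_dfinsupp] at h1 ⊢
    intro i x p hp
    have h2 := h1 i ⟨nv A e x, x.2⟩ (p.mapRange (fun j (y : ngr A e j) =>
      (⟨nv A e y, y.2⟩ : A.gr j)) (fun j => Subtype.ext (map_zero (nv A e))))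
    have h3 : DFinsupp.lsum ℕ (fun j => (A.gr j).subtype) ((p.mapRange (fun j (y : ngr A e j) =>
      (⟨nv A e y, y.2⟩ : A.gr j)) (fun j => Subtype.ext (map_zero (nv A e)))).erase i) =
        nv A e x := by
      have h4 : nv A e x = nv A e (DFinsupp.lsum ℕ (fun j => (ngr A e j).subtype) (p.erase i)) := by
        rw [hp]
      rw [h4, DFinsupp.lsum_apply_apply, DFinsupp.lsum_apply_apply,
        DFinsupp.sumAddHom_apply, DFinsupp.sumAddHom_apply]
      unfold DFinsupp.sum
      rw [map_sum]
      symm
      refine Finset.sum_subset_zero_on_sdiff ?_ ?_ ?_ |>.symm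
      · intro j hj
        rw [DFinsupp.mem_support_iff] at hj ⊢
        intro h0
        apply hj
        by_cases hji : j = i
        · subst hji
          rw [DFinsupp.erase_same]
        · rw [DFinsupp.erase_ne hji] at h0 ⊢
          rw [DFinsupp.mapRange_apply, h0]
          exact Subtype.ext (map_zero (nv A e))
      · intro j hj
        rw [Finset.mem_sdiff, DFinsupp.mem_support_iff, DFinsupp.mem_support_iff, not_not] at hj
        by_cases hji : j = i
        · subst hji
          exact absurd (DFinsupp.erase_same) hj.1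
        · have h5 := hj.2
          rw [DFinsupp.erase_ne hji, DFinsupp.mapRange_apply] at h5
          rw [DFinsupp.erase_ne hji]
          exact congrArg Subtype.val h5
      · intro j hj
        rw [DFinsupp.mem_support_iff] at hj
        by_cases hji : j = i
        · subst hji
          exact absurd (DFinsupp.erase_same) hj
        · rw [DFinsupp.erase_ne hji, DFinsupp.erase_ne hji, DFinsupp.mapRange_apply]
          rfl
    have h6 := h2 h3
    apply Subtype.ext
    apply nv_inj
    have := congrArg Subtype.val h6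
    show nv A e x = nv A e (0 : NT A e)
    rw [map_zero]
    exact this
  · rw [eq_top_iff]
    intro y _
    have hy : nv A e y ∈ ⨆ n, A.gr n := by
      rw [A.internal.submodule_iSup_eq_top]
      exact Submodule.mem_top
    have key : ∀ v ∈ ⨆ n, A.gr n, npr he v ∈ ⨆ n, ngr A e n := by
      intro v hv
      refine Submodule.iSup_induction A.gr (motive := fun v => npr he v ∈ ⨆ n, ngr A e n) hv ?_ ?_ ?_
      · intro n x hx
        exact Submodule.mem_iSup_of_mem n (he.pgr n x hx)
      · rw [map_zero]
        exact Submodule.zero_mem _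
      · intro a b ha hb
        rw [map_add]
        exact Submodule.add_mem _ ha hb
    have := key _ hy
    rwa [npr_nv] at this

/-- Sums over `ℕ` in the ideal. -/
theorem nv_finsum (f : ℕ → NT A e) (N : ℕ) (hN : ∀ i, N ≤ i → f i = 0) :
    nv A e (∑ᶠ i, f i) = ∑ᶠ i, nv A e (f i) := by
  rw [finsum_eq_range f N hN, finsum_eq_range (fun i => nv A e (f i)) N
    (fun i hi => by rw [hN i hi, map_zero]), map_sum]

/-- The direct factor as a vertex operator algebra. -/
noncomputable def cut (he : Idem A e) : VOA (NT A e) where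
  Y := nY he
  vac := npr he A.vac
  om := npr he A.om
  c := A.c
  gr := ngr A e
  trunc u v := by
    obtain ⟨N, hN⟩ := A.trunc (nv A e u) (nv A e v)
    refine ⟨N, fun n hn => ?_⟩
    apply nv_inj
    rw [nY_val, hN n hn, map_zero]
  vacuum n v := by
    apply nv_inj
    rw [nY_val, npr_val, he.left, A.vacuum]
    split_ifs
    · exact nv_fix A e v
    · rw [map_zero, map_zero]
  creation u n hn := by
    apply nv_inj
    rw [nY_val, npr_val, ← he.comm, A.creation _ n hn, map_zero, map_zero]
  creation_neg_one u := by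
    apply nv_inj
    rw [nY_val, npr_val, ← he.comm, A.creation_neg_one, nv_fix]
  jacobi u v w l m n := by
    have hl : ∃ N : ℕ, ∀ i : ℕ, N ≤ i → nY he u (l + i) v = 0 := by
      obtain ⟨N, hN⟩ := A.trunc_nat (nv A e u) (nv A e v) l
      exact ⟨N, fun i hi => nv_inj A e (by rw [nY_val, hN i hi, map_zero])⟩
    have hr1 : ∃ N : ℕ, ∀ i : ℕ, N ≤ i → nY he v (n + i) w = 0 := by
      obtain ⟨N, hN⟩ := A.trunc_nat (nv A e v) (nv A e w) n
      exact ⟨N, fun i hi => nv_inj A e (by rw [nY_val, hN i hi, map_zero])⟩
    have hr2 : ∃ N : ℕ, ∀ i : ℕ, N ≤ i → nY he u (m + i) w = 0 := by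
      obtain ⟨N, hN⟩ := A.trunc_nat (nv A e u) (nv A e w) m
      exact ⟨N, fun i hi => nv_inj A e (by rw [nY_val, hN i hi, map_zero])⟩
    obtain ⟨N, hN⟩ := hl
    obtain ⟨N1, hN1⟩ := hr1
    obtain ⟨N2, hN2⟩ := hr2
    apply nv_inj
    rw [nv_finsum _ N (fun i hi => by
        rw [hN i hi, map_zero, Pi.zero_apply, LinearMap.zero_apply, smul_zero]),
      nv_finsum _ (max N1 N2) (fun i hi => by
        rw [hN1 i ((le_max_left _ _).trans hi), hN2 i ((le_max_right _ _).trans hi), map_zero,
          map_zero, smul_zero, sub_zero, smul_zero])]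
    simp only [map_smul, map_sub, nY_val]
    exact A.jacobi _ _ _ l m n
  virasoro m n v := by
    apply nv_inj
    simp only [map_sub, map_add, map_smul, nY_val, npr_val, he.left, he.comm, nv_fix]
    exact A.virasoro m n _
  translation u n := by
    apply LinearMap.ext
    intro w
    apply nv_inj
    rw [nY_val, nY_val, npr_val, he.left, he.comm, nv_fix, A.translation]
    rfl
  mem_gr n v := by
    rw [mem_ngr, A.mem_gr]
    constructor
    · intro h
      apply nv_inj
      rw [nY_val, npr_val, he.left, h, map_smul, nv_fix, map_smul]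
    · intro h
      have := congrArg (nv A e) h
      rw [nY_val, npr_val, he.left, he.comm, nv_fix, map_smul] at this
      exact this
  internal := ngr_internal he
  findim n := by
    have := A.findim n
    let f : ngr A e n →ₗ[ℂ] A.gr n :=
      { toFun := fun x => ⟨nv A e x.1, x.2⟩
        map_add' := fun _ _ => rfl
        map_smul' := fun _ _ => rfl }
    apply Module.Finite.of_injective f
    intro x y hxy
    exact Subtype.ext (nv_inj A e (congrArg (fun z : A.gr n => (z : V)) hxy))
  bounded := by
    obtain ⟨N, hN⟩ := A.bounded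
    refine ⟨N, fun n hn => ?_⟩
    rw [eq_bot_iff]
    intro x hx
    rw [mem_ngr, hN n hn, Submodule.mem_bot] at hx
    rw [Submodule.mem_bot]
    exact nv_inj A e (by rw [hx, map_zero])

theorem cut_Y (he : Idem A e) (u : NT A e) (n : ℤ) (y : NT A e) :
    nv A e ((cut he).Y u n y) = A.Y (nv A e u) n (nv A e y) := rfl

theorem cut_gr (he : Idem A e) (n : ℤ) (y : NT A e) : y ∈ (cut he).gr n ↔ nv A e y ∈ A.gr n :=
  Iff.rfl

theorem cut_vac (he : Idem A e) : nv A e (cut he).vac = e := by
  show A.Y e (-1) A.vac = e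
  exact A.creation_neg_one e

/-- The projection is compatible with all products. -/
theorem npr_mul (he : Idem A e) (u : V) (n : ℤ) (w : V) :
    npr he (A.Y u n w) = (cut he).Y (npr he u) n (npr he w) := by
  apply nv_inj
  rw [cut_Y, npr_val, npr_val, npr_val, he.left, ← he.comm, he.pp]

end Pool.Agent.DERVX
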