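import Pool.Agent.DERVX.XC

/-!
# Project DERV: decomposition of a rational vertex operator algebra with `V_1 = 0`
-/

set_option autoImplicit false

universe u w

open Finset

namespace Pool.Agent.DERVX

open Pool.Agent.VOAut Pool.Agent.DERV

variable {V : Type u} [AddCommGroup V] [Module ℂ V]

section cutprops

variable {A : VOA V} {e : V}

/-- Modules of the factor are modules of the whole algebra. -/
noncomputable def pull (he : Idem A e) {M : Type u} [AddCommGroup M] [Module ℂ M]
    (X : AdmissibleModule (cut he) M) : AdmissibleModule A M where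
  Y := X.Y ∘ₗ npr he
  gr := X.gr
  trunc u x := X.trunc (npr he u) x
  vacuum n x := X.vacuum n x
  jacobi u v x l m n := by
    simp only [LinearMap.comp_apply, npr_mul]
    exact X.jacobi (npr he u) (npr he v) x l m n
  internal := X.internal
  nonneg := X.nonneg
  graded k m i u x hu hx := X.graded k m i (npr he u) x (he.pgr k u hu) hx

theorem pull_sub (he : Idem A e) {M : Type u} [AddCommGroup M] [Module ℂ M]
    (X : AdmissibleModule (cut he) M) (N : Submodule ℂ M) : (pull he X).IsSub N ↔ X.IsSub N := by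
  constructor
  · intro h
    refine ⟨fun u n x hx => ?_, h.2⟩
    obtain ⟨u', rfl⟩ := npr_surj he u
    exact h.1 u' n x hx
  · intro h
    exact ⟨fun u n x hx => h.1 (npr he u) n x hx, h.2⟩

theorem cut_rational (he : Idem A e) (hr : A.Rational) : (cut he).Rational := by
  intro M _ _ X
  obtain ⟨ι, N, hirr, hind, htop⟩ := hr M (pull he X)
  refine ⟨ι, N, fun i => ?_, hind, htop⟩
  obtain ⟨h1, h2, h3⟩ := hirr i
  exact ⟨(pull_sub he X _).1 h1, h2, fun N' hN' hs => h3 N' hN' ((pull_sub he X _).2 hs)⟩

theorem cut_c2 (he : Idem A e) (hc : C2 A) : C2 (cut he) := by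
  unfold C2 at hc ⊢
  have hle : Submodule.span ℂ {x : V | ∃ u v : V, x = A.Y u (-2) v} ≤
      (Submodule.span ℂ {x : NT A e | ∃ u v : NT A e, x = (cut he).Y u (-2) v}).comap
        (npr he) := by
    rw [Submodule.span_le]
    rintro _ ⟨u, v, rfl⟩
    rw [SetLike.mem_coe, Submodule.mem_comap, npr_mul]
    exact Submodule.subset_span ⟨_, _, rfl⟩
  refine Module.Finite.of_surjective (Submodule.mapQ _ _ (npr he) hle) ?_
  intro y
  obtain ⟨z, rfl⟩ := Submodule.Quotient.mk_surjective _ y
  obtain ⟨v, rfl⟩ := npr_surj he z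
  exact ⟨Submodule.Quotient.mk v, rfl⟩

end cutprops

section dec

variable (A : VOA V)

/-- The adjoint module when the weights are nonnegative. -/
noncomputable def adj (hneg : ∀ n : ℤ, n < 0 → A.gr n = ⊥) : AdmissibleModule A V where
  Y := A.Y
  gr := A.gr
  trunc := A.trunc
  vacuum := A.vacuum
  jacobi := A.jacobi
  internal := A.internal
  nonneg := hneg
  graded := A.graded

/-- For central vectors the two products agree. -/
theorem central_symm (h1 : A.gr 1 = ⊥) (v : V) (hv : v ∈ A.gr 0) (w : V) :
    A.Y v (-1) w = A.Y w (-1) v := by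
  have h := zero_comm A h1 v hv w (-1) A.vac
  rw [A.creation_neg_one, A.creation_neg_one] at h
  exact h

theorem exists_idempotents (h1 : A.gr 1 = ⊥) (hr : A.Rational) :
    ∃ (ι : Type u) (E : ι → V), (∀ i, Idem A (E i)) ∧ (∀ i, E i ≠ 0) ∧
      (∀ i, ∀ v ∈ A.gr 0, A.Y (E i) (-1) v = v → ∃ c : ℂ, v = c • E i) ∧
      ⨆ i, NN A (E i) = ⊤ := by
  have hneg : ∀ n : ℤ, n < 0 → A.gr n = ⊥ := fun n hn => neg_of_one A h1 n hn
  obtain ⟨ι, N, hirr, hind, htop⟩ := hr V (adj A hneg)
  have hsub : ∀ i, (adj A hneg).IsSub (N i) := fun i => (hirr i).1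
  have hCsub : ∀ i, (adj A hneg).IsSub (⨆ k, ⨆ (_ : k ≠ i), N k) := fun i =>
    AdmissibleModule.IsSub.iSup _ (fun k => AdmissibleModule.IsSub.iSup _ (fun _ => hsub k))
  have hcompl : ∀ i, IsCompl (N i) (⨆ k, ⨆ (_ : k ≠ i), N k) := by
    intro i
    refine ⟨hind i, ?_⟩
    rw [codisjoint_iff, eq_top_iff, ← htop]
    apply iSup_le
    intro k
    by_cases hk : k = i
    · rw [hk]
      exact le_sup_left
    · exact le_trans (le_iSup₂_of_le k hk le_rfl) le_sup_right
  -- the idempotents
  have hex : ∀ i, ∃ e ∈ N i, A.vac - e ∈ (⨆ k, ⨆ (_ : k ≠ i), N k) := by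
    intro i
    have h2 : A.vac ∈ N i ⊔ (⨆ k, ⨆ (_ : k ≠ i), N k) := by
      rw [(hcompl i).sup_eq_top]
      exact Submodule.mem_top
    obtain ⟨a, ha, b, hb, hab⟩ := Submodule.mem_sup.1 h2
    refine ⟨a, ha, ?_⟩
    rw [← hab, add_sub_cancel_left]
    exact hb
  choose E hE hE' using hex
  have hdisj : ∀ i x, x ∈ N i → x ∈ (⨆ k, ⨆ (_ : k ≠ i), N k) → x = 0 := by
    intro i x hx hx'
    have := (hcompl i).disjoint.le_bot ⟨hx, hx'⟩
    exact (Submodule.mem_bot ℂ).1 this
  have hgr : ∀ i, E i ∈ A.gr 0 := by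
    intro i
    have h2 : ∀ n : ℤ, n ≠ 0 → hcomp A.internal n (E i) = 0 := by
      intro n hn
      apply hdisj i
      · exact (((adj A hneg).isSub_iff (N i)).1 (hsub i)).2 n _ (hE i)
      · have h3 := (((adj A hneg).isSub_iff _).1 (hCsub i)).2 n _ (hE' i)
        have h4 : hcomp A.internal n (A.vac - E i) = -hcomp A.internal n (E i) := by
          rw [map_sub, hcomp_of_mem A.internal n 0 A.vac A.vac_mem, if_neg (Ne.symm hn), zero_sub]
        have h5 : -hcomp A.internal n (E i) ∈ (⨆ k, ⨆ (_ : k ≠ i), N k) := by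
          rw [← h4]
          exact h3
        exact (Submodule.neg_mem_iff _).1 h5
    have h3 := hcomp_sum A.internal (E i)
    rw [finsum_eq_single _ 0 (fun n hn => h2 n hn)] at h3
    rw [← h3]
    exact hcomp_mem A.internal 0 (E i)
  have hgr' : ∀ i, A.vac - E i ∈ A.gr 0 := fun i => Submodule.sub_mem _ A.vac_mem (hgr i)
  have hin : ∀ i w, A.Y (E i) (-1) w ∈ N i := by
    intro i w
    rw [central_symm A h1 (E i) (hgr i)]
    exact (hsub i).1 w (-1) _ (hE i)
  have hfix : ∀ i w, w ∈ N i → A.Y (E i) (-1) w = w := by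
    intro i w hw
    have h2 : w - A.Y (E i) (-1) w = A.Y (A.vac - E i) (-1) w := by
      rw [map_sub, Pi.sub_apply, LinearMap.sub_apply, A.vacuum, if_pos rfl]
    have h3 : w - A.Y (E i) (-1) w = 0 := by
      apply hdisj i
      · exact Submodule.sub_mem _ hw (hin i w)
      · rw [h2, central_symm A h1 _ (hgr' i)]
        exact (hCsub i).1 w (-1) _ (hE' i)
    exact (sub_eq_zero.1 h3).symm
  have hidem : ∀ i, Idem A (E i) := fun i =>
    { mem := hgr i
      van := fun n hn w => zero_modes A h1 (E i) (hgr i) n hn w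
      comm := fun u n w => zero_comm A h1 (E i) (hgr i) u n w
      idem := hfix i _ (hE i) }
  have hNN : ∀ i, NN A (E i) = N i := by
    intro i
    apply le_antisymm
    · intro v hv
      have hv' : A.Y (E i) (-1) v = v := hv
      rw [← hv']
      exact hin i v
    · intro v hv
      exact hfix i v hv
  have hne : ∀ i, E i ≠ 0 := by
    intro i h0
    apply (hirr i).2.1
    rw [eq_bot_iff]
    intro v hv
    have := hfix i v hv
    rw [h0, map_zero, Pi.zero_apply, LinearMap.zero_apply] at this
    rw [Submodule.mem_bot]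
    exact this.symm
  refine ⟨ι, E, hidem, hne, ?_, ?_⟩
  · -- Schur
    intro i v hv hvi
    have hvN : v ∈ N i := by
      rw [← hNN]
      exact hvi
    have hfin := A.findim 0
    let U : Submodule ℂ V := N i ⊓ A.gr 0
    have hUfin : FiniteDimensional ℂ U := Submodule.finiteDimensional_of_le inf_le_right
    have hUst : ∀ x ∈ U, A.Y v (-1) x ∈ U := by
      intro x hx
      refine ⟨(hsub i).1 v (-1) x hx.1, ?_⟩
      have := A.graded 0 (-1) 0 v x hv hx.2
      have e1 : (0 : ℤ) + 0 - -1 - 1 = 0 := by ring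
      rwa [e1] at this
    have hUnt : Nontrivial U := by
      refine ⟨⟨⟨E i, hE i, hgr i⟩, 0, ?_⟩⟩
      intro h0
      exact hne i (congrArg Subtype.val h0)
    obtain ⟨c, hc⟩ := Module.End.exists_eigenvalue ((A.Y v (-1)).restrict hUst)
    obtain ⟨x, hx⟩ := hc.exists_hasEigenvector
    have hx1 : A.Y v (-1) (x : V) = c • (x : V) := by
      have := hx.apply_eq_smul
      exact congrArg Subtype.val this
    have hx0 : (x : V) ≠ 0 := fun h0 => hx.2 (Subtype.ext h0)
    let K : Submodule ℂ V := N i ⊓ LinearMap.ker (A.Y v (-1) - c • LinearMap.id)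
    have hKmem : ∀ y, y ∈ K ↔ y ∈ N i ∧ A.Y v (-1) y = c • y := by
      intro y
      constructor
      · intro hy
        refine ⟨hy.1, ?_⟩
        have := LinearMap.mem_ker.1 hy.2
        rw [LinearMap.sub_apply, LinearMap.smul_apply, LinearMap.id_apply, sub_eq_zero] at this
        exact this
      · intro hy
        refine ⟨hy.1, LinearMap.mem_ker.2 ?_⟩
        rw [LinearMap.sub_apply, LinearMap.smul_apply, LinearMap.id_apply, hy.2, sub_self]
    have hKsub : (adj A hneg).IsSub K := by
      rw [(adj A hneg).isSub_iff]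
      constructor
      · intro u n y hy
        rw [hKmem] at hy ⊢
        refine ⟨(hsub i).1 u n y hy.1, ?_⟩
        show A.Y v (-1) (A.Y u n y) = c • A.Y u n y
        rw [zero_comm A h1 v hv, hy.2, map_smul]
      · intro n y hy
        rw [hKmem] at hy ⊢
        refine ⟨(((adj A hneg).isSub_iff (N i)).1 (hsub i)).2 n y hy.1, ?_⟩
        -- `v_{-1}` commutes with the projections
        have hcomm : ∀ y : V, A.Y v (-1) (hcomp A.internal n y) =
            hcomp A.internal n (A.Y v (-1) y) := by
          intro y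
          refine hom_ind A (P := fun y => A.Y v (-1) (hcomp A.internal n y) =
            hcomp A.internal n (A.Y v (-1) y)) y ?_ ?_ ?_
          · rw [map_zero, map_zero, map_zero]
          · intro a b ha hb
            rw [map_add, map_add, ha, hb, map_add, map_add]
          · intro m y hy
            have h2 : A.Y v (-1) y ∈ A.gr m := by
              have := A.graded 0 (-1) m v y hv hy
              have e1 : m + 0 - -1 - 1 = m := by ring
              rwa [e1] at this
            rw [hcomp_of_mem A.internal n m y hy, hcomp_of_mem A.internal n m _ h2]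
            split_ifs
            · rfl
            · rw [map_zero]
        show A.Y v (-1) (hcomp A.internal n y) = c • hcomp A.internal n y
        rw [hcomm, hy.2, map_smul]
    have hKne : K ≠ ⊥ := by
      intro h0
      apply hx0
      have : (x : V) ∈ K := (hKmem _).2 ⟨x.2.1, hx1⟩
      rw [h0, Submodule.mem_bot] at this
      exact this
    rcases (hirr i).2.2 K inf_le_left hKsub with h2 | h2
    · exact absurd h2 hKne
    · have h3 : E i ∈ K := by
        rw [h2]
        exact hE i
      rw [hKmem] at h3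
      refine ⟨c, ?_⟩
      rw [← h3.2, ← central_symm A h1 (E i) (hgr i) v]
      exact hvi.symm
  · have : (fun i => NN A (E i)) = N := funext hNN
    rw [this]
    exact htop

end dec

end Pool.Agent.DERVX
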