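import Pool.Agent.DERVX.XD
import Pool.Agent.DERV.FIN
import Pool.Agent.DERVR.FDA
import Pool.Agent.VOAut.AutFin

/-!
# Project DERV: derivations and automorphisms of rational vertex operator algebras with `V_1 = 0`
-/

set_option autoImplicit false

universe u w

open Finset

namespace Pool.Agent.DERVX

open Pool.Agent.VOAut Pool.Agent.DERV

variable {V : Type u} [AddCommGroup V] [Module ℂ V] (A : VOA V)

theorem cut_cft {e : V} (he : Idem A e) (h1 : A.gr 1 = ⊥) (h0 : e ≠ 0)
    (hs : ∀ v ∈ A.gr 0, A.Y e (-1) v = v → ∃ c : ℂ, v = c • e) : CFT (cut he) where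
  neg n hn := by
    rw [eq_bot_iff]
    intro x hx
    rw [cut_gr, neg_of_one A h1 n hn, Submodule.mem_bot] at hx
    rw [Submodule.mem_bot]
    exact nv_inj A e (by rw [hx, map_zero])
  zero := by
    apply le_antisymm
    · intro x hx
      rw [cut_gr] at hx
      obtain ⟨c, hc⟩ := hs _ hx (nv_fix A e x)
      refine Submodule.mem_span_singleton.2 ⟨c, ?_⟩
      apply nv_inj A e
      rw [map_smul, cut_vac, hc]
    · rw [Submodule.span_singleton_le_iff_mem, cut_gr, cut_vac]
      exact he.mem
  nt := by
    intro h2
    apply h0
    rw [← cut_vac he, h2, map_zero]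

theorem cut_one {e : V} (he : Idem A e) (h1 : A.gr 1 = ⊥) : (cut he).gr 1 = ⊥ := by
  rw [eq_bot_iff]
  intro x hx
  rw [cut_gr, h1, Submodule.mem_bot] at hx
  rw [Submodule.mem_bot]
  exact nv_inj A e (by rw [hx, map_zero])

theorem der_gr0 {D : Module.End ℂ V} (hD : IsDer A D) (n : ℤ) (v : V) (hv : v ∈ A.gr n) :
    D v ∈ A.gr n := by
  rw [A.mem_gr] at hv ⊢
  have h := hD.leib A.om 1 v
  rw [hv, map_smul, hD.om, map_zero, Pi.zero_apply, LinearMap.zero_apply, zero_add] at h
  exact h.symm

/-- A rational, `C_2`-cofinite vertex operator algebra with `V_1 = 0` has no derivations. -/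
theorem der_zero (h1 : A.gr 1 = ⊥) (hc : C2 A) (hr : A.Rational) {D : Module.End ℂ V}
    (hD : IsDer A D) : D = 0 := by
  obtain ⟨ι, E, hE, hne, hs, htop⟩ := exists_idempotents A h1 hr
  apply LinearMap.ext
  intro v
  have hv : v ∈ ⨆ i, NN A (E i) := by
    rw [htop]
    exact Submodule.mem_top
  rw [LinearMap.zero_apply]
  refine Submodule.iSup_induction (fun i => NN A (E i)) (motive := fun v => D v = 0) hv ?_
    (map_zero D) (fun a b ha hb => by rw [map_add, ha, hb, add_zero])
  intro i x hx
  have hx' : A.Y (E i) (-1) x = x := hx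
  -- `D` kills the idempotent
  have hDe : D (E i) = 0 := by
    have h2 : D (E i) ∈ A.gr 0 := der_gr0 A hD 0 _ (hE i).mem
    have h3 := hD.leib (E i) (-1) (E i)
    rw [(hE i).idem, ← central_symm A h1 (E i) (hE i).mem (D (E i)), ← two_smul ℂ] at h3
    have h4 := congrArg (A.Y (E i) (-1)) h3
    rw [map_smul, (hE i).pp, two_smul] at h4
    have h5 : A.Y (E i) (-1) (D (E i)) = 0 := by
      have := h4
      rwa [left_eq_add] at this
    rw [h5, smul_zero] at h3
    exact h3
  have hpres : ∀ w, A.Y (E i) (-1) w = w → A.Y (E i) (-1) (D w) = D w := by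
    intro w hw
    have h2 := hD.leib (E i) (-1) w
    rw [hw, hDe, map_zero, Pi.zero_apply, LinearMap.zero_apply, zero_add] at h2
    exact h2.symm
  have hD' : IsDer (cut (hE i)) (nres A (E i) D hpres) :=
    { leib := by
        intro u n w
        apply nv_inj
        rw [nres_val, cut_Y, hD.leib, map_add, cut_Y, cut_Y, nres_val, nres_val]
      om := by
        apply nv_inj
        rw [nres_val, map_zero]
        show D (A.Y (E i) (-1) A.om) = 0
        rw [hD.leib, hDe, hD.om, map_zero, map_zero, Pi.zero_apply, LinearMap.zero_apply,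
          zero_add] }
  have h6 := der_zero_cft (cut_cft A (hE i) h1 (hne i) (hs i)) (cut_one A (hE i) h1)
    (cut_c2 (hE i) hc) (cut_rational (hE i) hr) hD'
  have h7 := congrArg (fun f : Module.End ℂ (NT A (E i)) => nv A (E i) (f ⟨x, hx'⟩)) h6
  have h8 : D x = nv A (E i) 0 := h7
  rw [h8, map_zero]

/-- `C_2`-cofinite vertex operator algebras with nonnegative weights are finitely generated. -/
theorem fin_gen (hneg : ∀ n : ℤ, n < 0 → A.gr n = ⊥) (hc : C2 A) : ∃ N : ℕ,
    ∀ P : Submodule ℂ V, (∀ n : ℤ, n < N → A.gr n ≤ P) →
      (∀ u ∈ P, ∀ v ∈ P, ∀ n : ℤ, A.Y u n v ∈ P) → P = ⊤ := by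
  obtain ⟨N0, hN0⟩ := DERVR.CC_large hc 2 le_rfl
  refine ⟨N0.toNat, fun P hP hst => ?_⟩
  have key : ∀ n : ℕ, A.gr (n : ℤ) ≤ P := by
    intro n
    induction n using Nat.strong_induction_on with
    | _ n ih =>
      by_cases hn : (n : ℤ) < (N0.toNat : ℕ)
      · exact hP _ hn
      · have hlow : ∀ a : ℤ, a < n → ∀ p ∈ A.gr a, p ∈ P := by
          intro a ha p hp
          by_cases h0 : a < 0
          · rw [hneg a h0, Submodule.mem_bot] at hp
            rw [hp]
            exact P.zero_mem
          · have e : ((a.toNat : ℕ) : ℤ) = a := by omega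
            rw [← e] at hp
            exact ih a.toNat (by omega) hp
        have hcl : ∀ y ∈ DERVR.CC A 2, pr A n y ∈ P := by
          intro y hy
          unfold DERVR.CC at hy
          induction hy using Submodule.span_induction with
          | mem y hy =>
            obtain ⟨u, v, rfl⟩ := hy
            refine hom_ind A (P := fun u => ∀ v, pr A n (A.Y u (-((2 : ℕ) : ℤ)) v) ∈ P) u
              ?_ ?_ ?_ v
            · intro v
              rw [map_zero, Pi.zero_apply, LinearMap.zero_apply, map_zero]
              exact P.zero_mem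
            · intro x y hx hy v
              rw [map_add, Pi.add_apply, LinearMap.add_apply, map_add]
              exact P.add_mem (hx v) (hy v)
            · intro a p hp v
              refine hom_ind A (P := fun v => pr A n (A.Y p (-((2 : ℕ) : ℤ)) v) ∈ P) v
                ?_ ?_ ?_
              · rw [map_zero, map_zero]
                exact P.zero_mem
              · intro x y hx hy
                rw [map_add, map_add]
                exact P.add_mem hx hy
              · intro b q hq
                have h1 := A.graded a (-((2 : ℕ) : ℤ)) b p q hp hq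
                show hcomp A.internal n (A.Y p (-((2 : ℕ) : ℤ)) q) ∈ P
                rw [hcomp_of_mem A.internal n _ _ h1]
                split_ifs with h
                · by_cases ha : a < 0
                  · rw [hneg a ha, Submodule.mem_bot] at hp
                    rw [hp, map_zero, Pi.zero_apply, LinearMap.zero_apply]
                    exact P.zero_mem
                  · by_cases hb : b < 0
                    · rw [hneg b hb, Submodule.mem_bot] at hq
                      rw [hq, map_zero]
                      exact P.zero_mem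
                    · refine hst p (hlow a ?_ p hp) q (hlow b ?_ q hq) _
                      · push_cast at h
                        omega
                      · push_cast at h
                        omega
                · exact P.zero_mem
          | zero => rw [map_zero]; exact P.zero_mem
          | add x y _ _ hx hy => rw [map_add]; exact P.add_mem hx hy
          | smul c x _ hx => rw [map_smul]; exact P.smul_mem _ hx
        intro x hx
        have hx2 := hcl x (hN0 n (by omega) hx)
        have hpv : pr A n x = x := by
          show hcomp A.internal n x = x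
          rw [hcomp_of_mem A.internal n n x hx, if_pos rfl]
        rwa [hpv] at hx2
  rw [eq_top_iff]
  intro x _
  refine hom_ind A (P := fun x => x ∈ P) x P.zero_mem (fun x y hx hy => P.add_mem hx hy) ?_
  intro a p hp
  by_cases h0 : a < 0
  · rw [hneg a h0, Submodule.mem_bot] at hp
    rw [hp]
    exact P.zero_mem
  · have e : ((a.toNat : ℕ) : ℤ) = a := by omega
    rw [← e] at hp
    exact key a.toNat hp

theorem aut_finite_of_one (h1 : A.gr 1 = ⊥) (hc : C2 A) (hr : A.Rational) :
    Finite {g : V ≃ₗ[ℂ] V // A.IsAut g} := by
  have hneg : ∀ n : ℤ, n < 0 → A.gr n = ⊥ := fun n hn => neg_of_one A h1 n hn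
  obtain ⟨N, hN⟩ := fin_gen A hneg hc
  let U : Submodule ℂ V := ⨆ k : Fin N, A.gr (k : ℕ)
  have hfin : ∀ n, FiniteDimensional ℂ (A.gr n) := A.findim
  have hU : FiniteDimensional ℂ U := inferInstance
  refine A.aut_finite U ?_ ?_ ?_
  · intro g u hu
    refine Submodule.iSup_induction (fun k : Fin N => A.gr (k : ℕ)) (motive := fun u => g.1 u ∈ U)
      hu ?_ ?_ ?_
    · intro k x hx
      exact Submodule.mem_iSup_of_mem k (A.aut_gr g _ x hx)
    · rw [map_zero]
      exact Submodule.zero_mem _
    · intro a b ha hb
      rw [map_add]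
      exact Submodule.add_mem _ ha hb
  · intro P hvac hUP hst
    refine hN P (fun n hn => ?_) hst
    by_cases h0 : n < 0
    · rw [hneg n h0]
      exact bot_le
    · have h3 : A.gr n ≤ U := by
        have := le_iSup (fun k : Fin N => A.gr (k : ℕ)) ⟨n.toNat, by omega⟩
        have e : ((n.toNat : ℕ) : ℤ) = n := by omega
        simp only [e] at this
        exact this
      exact h3.trans hUP
  · intro D hD1 hD2
    exact der_zero A h1 hc hr ⟨hD1, hD2⟩

end Pool.Agent.DERVX
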