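import Pool.Agent.VOAut.AutInf

/-!
# Project DERV: rational vertex operator algebras with `V_0 = ℂ 1` and `V_1 ≠ 0`
-/

set_option autoImplicit false

universe u

namespace Pool.Agent.DERVX

open Pool.Agent.VOAut

variable {V : Type u} [AddCommGroup V] [Module ℂ V]

theorem one_of_finite (A : VOA V) (hrat : A.Rational) (h0 : A.gr 0 = Submodule.span ℂ {A.vac})
    (hf : Finite {g : V ≃ₗ[ℂ] V // A.IsAut g}) : A.gr 1 = ⊥ := by
  by_contra hne
  obtain ⟨v, hv, hvne⟩ := Submodule.exists_mem_ne_zero_of_ne_bot hne
  have e : A.DV0 = ⊥ := by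
    unfold VOA.DV0
    rw [h0, Submodule.map_span, Set.image_singleton, A.creation A.om 0 le_rfl]
    simp
  have hinf : Infinite {g : V ≃ₗ[ℂ] V // A.IsAut g} := by
    apply A.aut_infinite_of_derivation (A.Y v 0)
    · intro u n w
      exact A.zero_mode v u w n
    · have h := A.mode_zero v hv
      rw [e, Submodule.map_bot, Submodule.mem_bot] at h
      exact h
    · intro n x hx
      have := A.graded 1 0 n v x hv hx
      have e : n + 1 - 0 - 1 = n := by ring
      rwa [e] at this
    · intro h
      apply hvne
      have h2 := A.faithful hrat v hv (fun w => by rw [h]; rfl)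
      rwa [e, Submodule.mem_bot] at h2
  exact hinf.not_finite hf

end Pool.Agent.DERVX
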